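import Mathlib

/-!
Elements of a linear family are regular modulo an ideal outside a finite set of parameters.
-/

set_option autoImplicit false

namespace Pool.Agent.Helper95.ME

open Polynomial

theorem finite_bad {k S : Type*} [Field k] [CommRing S] [IsNoetherianRing S] [Algebra k S]
    (I : Ideal S) {N j₀ : ℕ} (hj : j₀ < N) (u : ℕ → S) (h : ∀ f, f * u j₀ ∈ I → f ∈ I) :
    {a : k | ¬ ∀ f, f * (∑ j ∈ Finset.range N, algebraMap k S a ^ j * u j) ∈ I → f ∈ I}.Finite := by
  classical
  have hfin : (associatedPrimes S (S ⧸ I)).Finite := associatedPrimes.finite _ _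
  -- for every associated prime finitely many parameters are bad
  have key : ∀ p ∈ associatedPrimes S (S ⧸ I),
      {a : k | (∑ j ∈ Finset.range N, algebraMap k S a ^ j * u j) ∈ p}.Finite := by
    intro p hp
    rw [AssociatedPrimes.mem_iff, isAssociatedPrime_iff] at hp
    obtain ⟨hprime, x, hpx⟩ := hp
    obtain ⟨x, rfl⟩ := Ideal.Quotient.mk_surjective x
    have hu : u j₀ ∉ p := by
      intro hmem
      rw [hpx, Submodule.mem_colon_singleton, Submodule.mem_bot] at hmem
      have h1 : u j₀ * x ∈ I :=
        Ideal.Quotient.eq_zero_iff_mem.1 (show Ideal.Quotient.mk I (u j₀ * x) = 0 from hmem)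
      have h2 := h x (by rw [mul_comm]; exact h1)
      apply hprime.ne_top
      rw [hpx, Ideal.eq_top_iff_one, Submodule.mem_colon_singleton,
        Ideal.Quotient.eq_zero_iff_mem.2 h2]
      simp
    let q : (S ⧸ p)[X] := ∑ j ∈ Finset.range N, C (Ideal.Quotient.mk p (u j)) * X ^ j
    have hq : q ≠ 0 := by
      intro h0
      have h1 : q.coeff j₀ = Ideal.Quotient.mk p (u j₀) := by
        simp only [q, finsetSum_coeff, coeff_C_mul_X_pow]
        rw [Finset.sum_eq_single j₀]
        · simp
        · intro b _ hb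
          rw [if_neg hb.symm]
        · intro hn
          exact absurd (Finset.mem_range.2 hj) hn
      rw [h0, coeff_zero] at h1
      exact hu (Ideal.Quotient.eq_zero_iff_mem.1 h1.symm)
    have hinj : Function.Injective (fun a : k => Ideal.Quotient.mk p (algebraMap k S a)) := by
      have : Nontrivial (S ⧸ p) := Ideal.Quotient.nontrivial_iff.2 hprime.ne_top
      exact ((Ideal.Quotient.mk p).comp (algebraMap k S)).injective
    have hroot : ((q.rootSet (S ⧸ p)) : Set (S ⧸ p)).Finite := by
      exact (q.rootSet_finite _)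
    refine Set.Finite.subset (hroot.preimage (f := fun a : k =>
      Ideal.Quotient.mk p (algebraMap k S a)) hinj.injOn) ?_
    intro a ha
    rw [Set.mem_preimage, mem_rootSet]
    refine ⟨hq, ?_⟩
    have h1 := Ideal.Quotient.eq_zero_iff_mem.2 (show _ ∈ p from ha)
    rw [map_sum] at h1
    rw [← h1]
    simp only [q, map_sum, map_mul, map_pow, aeval_C, aeval_X, Algebra.algebraMap_self_apply]
    refine Finset.sum_congr rfl fun j _ => ?_
    ring
  refine Set.Finite.subset (hfin.biUnion key) ?_
  intro a ha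
  simp only [Set.mem_ofPred_eq, not_forall] at ha
  obtain ⟨f, hf, hfI⟩ := ha
  have h2 : (∑ j ∈ Finset.range N, algebraMap k S a ^ j * u j) ∈
      ⋃ p ∈ associatedPrimes S (S ⧸ I), (p : Set S) := by
    rw [biUnion_associatedPrimes_eq_zero_divisors]
    refine ⟨Ideal.Quotient.mk I f, fun h0 => hfI (Ideal.Quotient.eq_zero_iff_mem.1 h0), ?_⟩
    rw [mul_comm] at hf
    exact (show Ideal.Quotient.mk I (_ * f) = 0 from Ideal.Quotient.eq_zero_iff_mem.2 hf)
  rw [Set.mem_iUnion₂] at h2 ⊢
  obtain ⟨p, hp, hp2⟩ := h2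
  exact ⟨p, hp, hp2⟩

end Pool.Agent.Helper95.ME
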