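import Pool.Agent.Helper95.ME.Hilb
import Mathlib.RingTheory.MvPolynomial.Ideal

/-!
Two curves with a common vertex: the bound at the vertex.
-/

set_option autoImplicit false

namespace Pool.Agent.Helper95.ME

open MvPolynomial Module Pool.Agent.Helper95.MI

section

variable {k : Type*} [Field k]

/-! ### powers of the ideal of the vertex -/

theorem nn_le : Ideal.span ({X 1, X 2, X 3} : Set (RR k)) ≤ ext (idealOfVars (Fin 3) k) := by
  rw [Ideal.span_le]
  have h : ∀ i : Fin 3, (X i.succ : RR k) ∈ ext (idealOfVars (Fin 3) k) := by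
    intro i
    have h1 : (iot (X i) : RR k) = X i.succ := by rw [iot, rename_X]
    rw [← h1]
    exact iot_mem_ext.2 (Ideal.subset_span ⟨i, rfl⟩)
  rintro _ (rfl | rfl | rfl)
  · exact h 0
  · exact h 1
  · exact h 2

theorem nn_pow_le (N : ℕ) :
    Ideal.span ({X 1, X 2, X 3} : Set (RR k)) ^ N ≤ ext (idealOfVars (Fin 3) k ^ N) := by
  unfold ext
  rw [Ideal.map_pow]
  exact Ideal.pow_right_mono nn_le N

theorem coeff_ee (f : RR k) (i : ℕ) (d : Fin 3 →₀ ℕ) :
    coeff d ((ee f).coeff i) = coeff (Finsupp.cons i d) f :=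
  finSuccEquiv_coeff_coeff d f i

theorem degree_cons (i : ℕ) (d : Fin 3 →₀ ℕ) :
    (Finsupp.cons i d : Fin 4 →₀ ℕ).degree = i + d.degree := by
  rw [Finsupp.degree_eq_sum, Finsupp.degree_eq_sum, Fin.sum_univ_succ, Finsupp.cons_zero]
  simp only [Finsupp.cons_succ]

theorem hom_ext_pow (N : ℕ) : Hom (ext (idealOfVars (Fin 3) k ^ N)) := by
  intro f hf n
  rw [mem_ext] at hf ⊢
  intro i
  have h1 := hf i
  rw [mem_pow_idealOfVars_iff'] at h1 ⊢
  intro d hd
  have h2 := h1 d hd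
  rw [coeff_ee] at h2 ⊢
  rw [coeff_homogeneousComponent]
  split_ifs
  · exact h2
  · rfl

/-- iterated division by `w` -/
theorem ee_dv_pow (r : ℕ) (f : RR k) (i : ℕ) :
    (ee ((dv ^ r) f)).coeff i = (ee f).coeff (i + r) := by
  induction r generalizing i with
  | zero => rfl
  | succ r ih =>
    rw [pow_succ', Module.End.mul_apply, ee_dv, Polynomial.coeff_divX, ih]
    congr 1
    omega

theorem kill_pow {N n r : ℕ} (hr : n < r + N) {f : RR k}
    (hf : f ∈ PP (ext (idealOfVars (Fin 3) k ^ N)) n) : (dv ^ r) f = 0 := by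
  obtain ⟨h1, h2⟩ := hf
  have h2' : f ∈ ext (idealOfVars (Fin 3) k ^ N) := h2
  rw [mem_ext] at h2'
  apply ee.injective
  rw [map_zero]
  ext i d
  rw [ee_dv_pow, Polynomial.coeff_zero, coeff_zero]
  have h3 := h2' (i + r)
  rw [mem_pow_idealOfVars_iff'] at h3
  rcases lt_or_ge d.degree N with h4 | h4
  · exact h3 d h4
  · rw [coeff_ee]
    by_contra h5
    have h6 : (Finsupp.cons (i + r) d : Fin 4 →₀ ℕ).degree = n := by
      have h7 := IsHomogeneous.coeff_eq_zero (d := (Finsupp.cons (i + r) d : Fin 4 →₀ ℕ)) h1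
      by_contra h8
      exact h5 (h7 h8)
    rw [degree_cons] at h6
    omega

theorem dv_pow_w (r : ℕ) (f : RR k) : (dv ^ r) (X 0 ^ r * f) = f := by
  induction r with
  | zero => rw [pow_zero, pow_zero, one_mul]; rfl
  | succ r ih =>
    rw [pow_succ, Module.End.mul_apply, pow_succ', mul_assoc, dv_w, ih]

theorem dv_pow_hom (r : ℕ) {m : ℕ} {f : RR k} (h : f.IsHomogeneous (m + r)) :
    ((dv ^ r) f).IsHomogeneous m := by
  induction r generalizing f with
  | zero => exact h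
  | succ r ih =>
    rw [pow_succ, Module.End.mul_apply]
    exact ih (dv_hom h)

theorem map_VV (m r : ℕ) : (VV k (m + r)).map (dv ^ r) = VV k m := by
  apply le_antisymm
  · rintro _ ⟨f, hf, rfl⟩
    exact dv_pow_hom r hf
  · intro f hf
    have hf' : f.IsHomogeneous m := hf
    refine ⟨X 0 ^ r * f, ?_, dv_pow_w r f⟩
    have h1 : ((X 0 : RR k) ^ r * f).IsHomogeneous (1 * r + m) :=
      ((isHomogeneous_X k 0).pow r).mul hf'
    rw [one_mul, add_comm] at h1
    exact h1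

theorem dv_pow_WW {r : ℕ} (hr : 1 ≤ r) {f : RR k} (hf : f ∈ WW k) : (dv ^ r) f = 0 := by
  obtain ⟨s, rfl⟩ : ∃ s, r = s + 1 := ⟨r - 1, by omega⟩
  rw [pow_succ, Module.End.mul_apply, mem_WW.1 hf, map_zero]

namespace CD

variable (D : CD k) (hom : Hom D.I) (homJ : Hom (ext D.J))

include hom homJ

theorem I_map_pow (m : ℕ) : ∀ r : ℕ, (PP D.I (m + (r + 1))).map (dv ^ (r + 1)) ≤
    PP D.I m ⊔ (PP (ext D.J) m ⊓ WW k) := by
  intro r
  induction r with
  | zero =>
    rw [zero_add, pow_one, D.I_map_dv hom homJ]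
  | succ r ih =>
    rintro _ ⟨f, hf, rfl⟩
    have h1 : dv f ∈ (PP D.I (m + (r + 1) + 1)).map dv := ⟨f, hf, rfl⟩
    rw [D.I_map_dv hom homJ] at h1
    obtain ⟨y, hy, z, hz, hyz⟩ := Submodule.mem_sup.1 h1
    rw [pow_succ, Module.End.mul_apply, ← hyz, map_add, dv_pow_WW (by omega) hz.2, add_zero]
    exact ih ⟨y, hy, rfl⟩

theorem finrank_I_map (m : ℕ) :
    (finrank k (PP D.I m ⊔ (PP (ext D.J) m ⊓ WW k) : Submodule k (RR k)) : ℤ) =
      pd (ext D.J) m := by
  rw [← D.I_map_dv hom homJ]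
  have h1 := pp_succ D.I m
  have h2 := D.pd_I hom homJ (m + 1 : ℕ)
  rw [pd_nat, D.ps_I] at *
  have h3 := ps_ext (Ideal.span {D.F}) (m + 1)
  have h4 : (finrank k (PP D.I (m + 1)) : ℤ) = ps (ext (Ideal.span {D.F})) (m + 1) +
      finrank k ((PP D.I (m + 1)).map dv) := by exact_mod_cast h1
  rw [h4, h3] at h2
  have h5 : ((m + 1 : ℕ) : ℤ) - 1 = m := by push_cast; ring
  rw [h5, pd_nat (ext D.J)] at h2
  linarith

end CD

theorem vertex_bound (D : CD k) (hom : Hom D.I) (homJ : Hom (ext D.J)) {N : ℕ} (hN : 1 ≤ N)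
    {I₂ : Ideal (RR k)} (h2 : I₂ ≤ D.I ⊔ Ideal.span {X 1, X 2, X 3} ^ N) :
    ∀ n : ℕ, N ≤ n → hilbZ (ext D.J) ((N : ℤ) - 1) ≤ hilbZ (D.I ⊔ I₂) n := by
  intro n hn
  obtain ⟨m, rfl⟩ : ∃ m, N = m + 1 := ⟨N - 1, by omega⟩
  obtain ⟨r, rfl⟩ : ∃ r, n = m + (r + 1) := ⟨n - (m + 1), by omega⟩
  set P : Ideal (RR k) := ext (idealOfVars (Fin 3) k ^ (m + 1)) with hP
  have hL : D.I ⊔ I₂ ≤ D.I ⊔ P :=
    sup_le le_sup_left (h2.trans (sup_le_sup_left (nn_pow_le (m + 1)) _))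
  have h3 := pd_mono hL ((m + (r + 1) : ℕ) : ℤ)
  have h4 := rank_null (VV k (m + (r + 1))) (dv ^ (r + 1))
  rw [map_VV, finrank_V, finrank_V] at h4
  have h5 := rank_null (PP (D.I ⊔ P) (m + (r + 1))) (dv ^ (r + 1))
  have h6 : finrank k (PP (D.I ⊔ P) (m + (r + 1)) ⊓ LinearMap.ker (dv ^ (r + 1)) :
      Submodule k (RR k)) ≤ finrank k (VV k (m + (r + 1)) ⊓ LinearMap.ker (dv ^ (r + 1)) :
      Submodule k (RR k)) :=
    Submodule.finrank_mono (inf_le_inf_right _ (fun x hx => hx.1))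
  have h7 : (PP (D.I ⊔ P) (m + (r + 1))).map (dv ^ (r + 1)) ≤
      PP D.I m ⊔ (PP (ext D.J) m ⊓ WW k) := by
    rw [PP_sup hom (hom_ext_pow (m + 1)), Submodule.map_sup]
    refine sup_le (D.I_map_pow hom homJ m r) ?_
    rintro _ ⟨f, hf, rfl⟩
    rw [kill_pow (by omega) hf]
    exact Submodule.zero_mem _
  have h8 := Submodule.finrank_mono h7
  have h9 := D.finrank_I_map hom homJ m
  have h10 : ((m + 1 : ℕ) : ℤ) - 1 = m := by push_cast; ring
  rw [h10, hilbZ_eq, hilbZ_eq, vd_nat, vd_nat]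
  have h11 : pd (D.I ⊔ P) ((m + (r + 1) : ℕ) : ℤ) =
      finrank k (PP (D.I ⊔ P) (m + (r + 1))) := pd_nat _ _
  have h12 : (finrank k (PP (D.I ⊔ P) (m + (r + 1))) : ℤ) ≤
      finrank k (VV k (m + (r + 1)) ⊓ LinearMap.ker (dv ^ (r + 1)) : Submodule k (RR k)) +
        pd (ext D.J) m := by
    rw [← h9, h5]
    exact_mod_cast Nat.add_le_add h6 h8
  have h13 : (Nat.choose (m + (r + 1) + 3) 3 : ℤ) =
      finrank k (VV k (m + (r + 1)) ⊓ LinearMap.ker (dv ^ (r + 1)) : Submodule k (RR k)) +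
        Nat.choose (m + 3) 3 := by exact_mod_cast h4
  rw [h13]
  linarith

/-! ### the sum -/

/-- second difference of `vd` -/
theorem vd_diff' (n : ℤ) : vd n - 2 * vd (n - 1) + vd (n - 2) = if 0 ≤ n then n + 1 else 0 := by
  split_ifs with h
  · exact vd_diff (by omega)
  · rw [vd_neg (by omega), vd_neg (by omega), vd_neg (by omega)]
    ring

theorem double_sum {B : ℤ → ℤ} (h1 : B (-1) = 0) (h2 : B (-2) = 0) (t : ℕ) :
    ∑ i ∈ Finset.range t, ((t : ℤ) - i) * (B i - 2 * B (i - 1) + B (i - 2)) = B ((t : ℤ) - 1) := by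
  have hs : ∀ t : ℕ, ∑ i ∈ Finset.range t, (B i - 2 * B (i - 1) + B (i - 2)) =
      B ((t : ℤ) - 1) - B ((t : ℤ) - 2) := by
    intro t
    induction t with
    | zero => simp [h1, h2]
    | succ t ih =>
      rw [Finset.sum_range_succ, ih]
      push_cast
      have e1 : (t : ℤ) + 1 - 1 = t := by ring
      have e2 : (t : ℤ) + 1 - 2 = t - 1 := by ring
      rw [e1, e2]
      ring
  induction t with
  | zero => simp [h1]
  | succ t ih =>
    have e3 : ∑ i ∈ Finset.range (t + 1), (((t + 1 : ℕ) : ℤ) - i) *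
        (B i - 2 * B (i - 1) + B (i - 2)) =
        ∑ i ∈ Finset.range t, ((t : ℤ) - i) * (B i - 2 * B (i - 1) + B (i - 2)) +
        ∑ i ∈ Finset.range (t + 1), (B i - 2 * B (i - 1) + B (i - 2)) := by
      rw [Finset.sum_range_succ, Finset.sum_range_succ, ← add_assoc, ← Finset.sum_add_distrib]
      congr 1
      · refine Finset.sum_congr rfl fun i _ => ?_
        push_cast
        ring
      · push_cast
        ring
    rw [e3, ih, hs]
    push_cast
    have e1 : (t : ℤ) + 1 - 1 = t := by ring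
    have e2 : (t : ℤ) + 1 - 2 = t - 1 := by ring
    rw [e1, e2]
    ring

theorem vertex_sum (D : CD k) (hom : Hom D.I) (homJ : Hom (ext D.J)) {g : ℕ} {h : ℕ → ℕ}
    (hF : D.F.IsHomogeneous g) (hh : ∀ n : ℕ, hvec D.I n = h n) {t : ℕ} (ht : 1 ≤ t) :
    hilbZ (ext D.J) ((t : ℤ) - 2) =
      ∑ i ∈ Finset.range t, ((t : ℤ) - i) * ((h i : ℤ) - if i < g then 1 else 0) := by
  have hF0 : (iot D.F : RR k) ≠ 0 := by
    intro h0
    rw [← map_zero (iot : SS k →ₐ[k] RR k)] at h0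
    exact D.hF.ne_zero (iot_inj h0)
  have hspan : ext (Ideal.span {D.F}) = Ideal.span {(iot D.F : RR k)} := by
    unfold ext
    rw [Ideal.map_span, Set.image_singleton]
  have hpF : ∀ n : ℤ, pd (ext (Ideal.span {D.F})) n = vd (n - g) := by
    intro n
    rw [hspan]
    exact pd_span (iot_hom hF) hF0 n
  have hI : ∀ n : ℤ, hilbZ D.I n = vd n - vd (n - g) + vd (n - 1 - g) - pd (ext D.J) (n - 1) := by
    intro n
    rw [hilbZ_eq, D.pd_I hom homJ, hpF, hpF]
    ring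
  have key : ∀ i : ℕ, (h i : ℤ) - (if i < g then 1 else 0) =
      hilbZ (ext D.J) ((i : ℤ) - 1) - 2 * hilbZ (ext D.J) ((i : ℤ) - 1 - 1) +
        hilbZ (ext D.J) ((i : ℤ) - 2 - 1) := by
    intro i
    rw [← hh i, hvec, hI, hI, hI, hilbZ_eq, hilbZ_eq, hilbZ_eq]
    have a1 := vd_diff' (i : ℤ)
    have a2 := vd_diff' ((i : ℤ) - 1)
    have a3 := vd_diff' ((i : ℤ) - g)
    have a4 := vd_diff' ((i : ℤ) - g - 1)
    have b1 : (i : ℤ) - 1 - g = i - g - 1 := by ring
    have b2 : (i : ℤ) - 2 - g = i - g - 2 := by ring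
    have b3 : (i : ℤ) - 1 - 1 - g = i - g - 1 - 1 := by ring
    have b4 : (i : ℤ) - 2 - 1 - g = i - g - 1 - 2 := by ring
    have b5 : (i : ℤ) - 1 - 1 = i - 2 := by ring
    have b6 : (i : ℤ) - g - 1 - 1 = i - g - 2 := by ring
    have b7 : (i : ℤ) - 1 - 2 = i - 2 - 1 := by ring
    rw [b1, b2, b3, b4, b6]
    rw [b7, b5] at a2
    rw [b6] at a4
    rw [b5]
    have c1 : (0 : ℤ) ≤ i := Int.natCast_nonneg i
    rw [if_pos c1] at a1
    have c2 : (if (0 : ℤ) ≤ (i : ℤ) - 1 then (i : ℤ) - 1 + 1 else 0) = i := by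
      split_ifs with h0
      · ring
      · have : (i : ℤ) = 0 := by omega
        rw [this]
    rw [c2] at a2
    have c3 : (if (0 : ℤ) ≤ (i : ℤ) - g then (i : ℤ) - g + 1 else 0) -
        (if (0 : ℤ) ≤ (i : ℤ) - g - 1 then (i : ℤ) - g - 1 + 1 else 0) =
        1 - (if i < g then 1 else 0) := by
      split_ifs <;> omega
    linarith
  have hd := double_sum (B := fun n => hilbZ (ext D.J) (n - 1)) (by
      rw [hilbZ, if_neg (by norm_num)]) (by
      rw [hilbZ, if_neg (by norm_num)]) t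
  have e0 : (t : ℤ) - 2 = t - 1 - 1 := by ring
  rw [e0, ← hd]
  refine Finset.sum_congr rfl fun i _ => ?_
  rw [key i]

end

end Pool.Agent.Helper95.ME
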